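import Pool.Agent.Work.MP_bec1e1_FIN_h39.ENVT

/-! # FIN: block NEAR (many near-ties) -/

set_option autoImplicit false
set_option maxHeartbeats 400000

open Filter Topology
open scoped BigOperators

namespace Pool.Agent.LCSV

open Pool.Agent.LCSE

noncomputable section

variable {k : ℕ}

/-- an upper bound for the mean over `y` for all words gives one for `AV` -/
lemma AV_Ex_le (hk : 2 ≤ k) {s : ℕ} {o : Fin k} {θ : ℝ} (h0 : 0 ≤ θ) (hθ : θ ≤ thm k s)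
    {j N b : ℕ} {Φ : List (Fin k) → List (Fin k) → List (Fin k) → List (Fin k) → ℝ} {c : ℝ}
    (h : ∀ x₁ r x₂, Ex k b (fun y => Φ x₁ r x₂ y) ≤ c) : AV k s o θ j N b Φ ≤ c := by
  unfold AV
  rw [div_le_iff₀ (by positivity)]
  have h1 : ∀ p ∈ Finset.range (N + 1), (Exc k s (gth k s o θ) p fun xs₁ =>
      Exc k s (gth k s o θ) j fun rs => Exc k s (gth k s o θ) (N - p) fun xs₂ =>
      Ex k b fun y => Φ xs₁.flatten rs.flatten xs₂.flatten y) ≤ c := by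
    intro p _
    refine Exc_le_const (gth_nn hk h0 hθ) (gth_one hk s o θ) fun xs₁ _ => ?_
    refine Exc_le_const (gth_nn hk h0 hθ) (gth_one hk s o θ) fun rs _ => ?_
    refine Exc_le_const (gth_nn hk h0 hθ) (gth_one hk s o θ) fun xs₂ _ => ?_
    exact h _ _ _
  refine (Finset.sum_le_sum h1).trans (le_of_eq ?_)
  rw [Finset.sum_const, Finset.card_range, nsmul_eq_mul]
  push_cast
  ring

theorem stmt_NEAR (hT2 : Stmt_T2) (hTY : Stmt_FTYP) (hBU : Stmt_BULK) (hRES : Stmt_RES) :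
    Stmt_NEAR := by
  intro k C p q Pl Pu w o
  have hk := w.hk
  obtain ⟨c₀, ε, hc₀, hε, h2⟩ := hT2 k C p q Pl Pu w o
  obtain ⟨d, hd, h3⟩ := hTY k C p q Pl Pu w ε hε
  have h4 := hBU k C p q Pl Pu w (c₀ / 4) (by positivity) (2 * k)
  have h5 : ∀ᶠ s : ℕ in atTop, Real.exp (-(d / 2 * (s : ℝ))) ≤ c₀ / 4 := by
    have h6 : Tendsto (fun s : ℕ => Real.exp (-(d / 2 * (s : ℝ)))) atTop (𝓝 0) := by
      refine Real.tendsto_exp_neg_atTop_nhds_zero.comp ?_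
      exact Tendsto.const_mul_atTop (by positivity) tendsto_natCast_atTop_atTop
    exact (h6.eventually_lt_const (by positivity)).mono fun s hs => hs.le
  refine ⟨c₀ / 2, d / 2, 1 + 12 * k, by positivity, by positivity, by positivity, ?_⟩
  filter_upwards [h2, h3, h4, h5] with s hs2 hs3 hs4 hs5
  obtain ⟨θ, hθ0, hθ1, hav⟩ := hs2
  refine ⟨θ, hθ0, hθ1, ?_⟩
  have hs4' := hs4 o θ hθ0 hθ1
  set M : ℝ := Real.exp (d / 2 * (s : ℝ)) with hM
  have hcast : ((2 * k : ℕ) : ℝ) = 2 * k := by push_cast; ring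
  have hlev : (s : ℝ) + 6 * ((2 * k * s : ℕ) : ℝ) = (1 + 12 * (k : ℝ)) * s := by
    push_cast
    ring
  -- the event of `RES`
  have hres : AV k s o θ 0 (NN k s - 1) (bb k s) (fun x₁ _ x₂ y =>
      ind (∃ g, g + 2 * k * s ≤ bb k s ∧ NT x₁ x₂ y s g ∧
        ¬ Typ k s o ε ((y.drop g).take (2 * k * s)) ∧
        (nNT x₁ x₂ y ((1 + 12 * (k : ℝ)) * s) : ℝ) < M)) ≤ c₀ / 4 := by
    refine AV_Ex_le hk hθ0 hθ1 fun x₁ _ x₂ => ?_
    have h6 := hRES k (2 * k * s) (bb k s) x₁ x₂ (fun v => ¬ Typ k s o ε v)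
      (Real.exp (-(d * s))) s M hk (Real.exp_pos _).le (hs3 o)
    rw [hlev] at h6
    refine h6.trans ?_
    rw [hM, ← Real.exp_add]
    have : d / 2 * (s : ℝ) + -(d * s) = -(d / 2 * s) := by ring
    rw [this]
    exact hs5
  have hcov : AV k s o θ 0 (NN k s - 1) (bb k s) (fun x₁ _ x₂ y =>
      ind (∃ g ≤ y.length, NT x₁ x₂ y s g ∧ ¬ Typ k s o ε ((y.drop g).take (2 * k * s)))) ≤
      AV k s o θ 0 (NN k s - 1) (bb k s) (fun x₁ _ x₂ y =>
        (ind (M ≤ nNT x₁ x₂ y ((1 + 12 * (k : ℝ)) * s)) +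
        ind (∃ g, g + 2 * k * s ≤ bb k s ∧ NT x₁ x₂ y s g ∧
          ¬ Typ k s o ε ((y.drop g).take (2 * k * s)) ∧
          (nNT x₁ x₂ y ((1 + 12 * (k : ℝ)) * s) : ℝ) < M)) +
        ind (∃ g ≤ y.length, y.length < g + 2 * k * s ∧
          NT x₁ x₂ y ((2 * k : ℕ) * s) g)) := by
    refine AV_mono hk hθ0 hθ1 fun x₁ _ x₂ y _ _ hy => ?_
    apply ind_le_add₃
    rintro ⟨g, hg, hNT, hTyp⟩
    by_cases h6 : M ≤ nNT x₁ x₂ y ((1 + 12 * (k : ℝ)) * s)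
    · exact Or.inl h6
    · by_cases h7 : g + 2 * k * s ≤ bb k s
      · exact Or.inr (Or.inl ⟨g, h7, hNT, hTyp, not_le.1 h6⟩)
      · refine Or.inr (Or.inr ⟨g, hg, ?_, ?_⟩)
        · rw [hy]
          exact not_le.1 h7
        · unfold NT at hNT ⊢
          have h8 : (s : ℝ) ≤ (2 * k : ℕ) * s := by
            have h9 : (1 : ℝ) ≤ (2 * k : ℕ) := by exact_mod_cast (by omega : 1 ≤ 2 * k)
            have h10 : (0 : ℝ) ≤ s := Nat.cast_nonneg s
            nlinarith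
          linarith
  rw [AV_add (k := k) (Φ := fun x₁ _ x₂ y =>
        (ind (M ≤ nNT x₁ x₂ y ((1 + 12 * (k : ℝ)) * s)) +
        ind (∃ g, g + 2 * k * s ≤ bb k s ∧ NT x₁ x₂ y s g ∧
          ¬ Typ k s o ε ((y.drop g).take (2 * k * s)) ∧
          (nNT x₁ x₂ y ((1 + 12 * (k : ℝ)) * s) : ℝ) < M))), AV_add] at hcov
  linarith

end

end Pool.Agent.LCSV
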